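import Pool.Agent.H82.NET.Stmts

/-!
# Row ELB of the board net: the elbow lemma
-/

set_option autoImplicit false

namespace Pool.NET

theorem elb_thm : ELB_S := by
  intro N h u hfin hHN hUN hTr nw ne sw se h1 h2 h3 h4 h5 h6
  obtain ⟨hC, d, hd, huniq⟩ := hTr
  obtain ⟨D, hD⟩ : ∃ D : ℕ, ∀ v ∈ N, d v ≤ D := by
    obtain ⟨D, hD⟩ := (hfin.image d).bddAbove
    exact ⟨D, fun v hv => hD ⟨v, hv, rfl⟩⟩
  have main : ∀ k : ℕ, ∀ v ∈ N, D - d v = k →
      (ne v ↔ nw v) ∧ (sw v ↔ nw v) ∧ (se v ↔ nw v) := by
    intro k
    induction k using Nat.strong_induction_on with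
    | _ k ih =>
      rintro ⟨i, j⟩ hv hk
      have child : ∀ w, w ∈ N → d (i, j) < d w →
          (ne w ↔ nw w) ∧ (sw w ↔ nw w) ∧ (se w ↔ nw w) := by
        intro w hw hlt
        have hwD := hD w hw
        exact ih (D - d w) (by omega) w hw rfl
      -- right
      have R : (ne (i, j) ↔ se (i, j)) ∨
          (Ad N h u (i, j) (i + 1, j) ∧ d (i + 1, j) < d (i, j)) := by
        by_cases hh : h (i, j)
        · have hw : ((i + 1, j) : Nd) ∈ N := (hHN (i, j) hh).2
          have hA : Ad N h u (i, j) (i + 1, j) := ⟨hv, hw, Or.inl ⟨rfl, hh⟩⟩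
          rcases lt_or_gt_of_ne (hd _ _ hA) with hlt | hlt
          · left
            obtain ⟨a1, a2, a3⟩ := child _ hw hlt
            obtain ⟨b1, b2⟩ := h1 (i, j) hv hh
            rw [b1, b2]
            exact a2.symm
          · exact Or.inr ⟨hA, hlt⟩
        · exact Or.inl (h2 (i, j) hv hh)
      -- left
      have L : (nw (i, j) ↔ sw (i, j)) ∨
          (Ad N h u (i, j) (i - 1, j) ∧ d (i - 1, j) < d (i, j)) := by
        by_cases hh : h (i - 1, j)
        · have e : ((i - 1 + 1, j) : Nd) = (i, j) := by rw [sub_add_cancel]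
          have hw : ((i - 1, j) : Nd) ∈ N := (hHN (i - 1, j) hh).1
          have hA : Ad N h u (i, j) (i - 1, j) :=
            ⟨hv, hw, Or.inr (Or.inl ⟨e.symm, hh⟩)⟩
          rcases lt_or_gt_of_ne (hd _ _ hA) with hlt | hlt
          · left
            obtain ⟨a1, a2, a3⟩ := child _ hw hlt
            obtain ⟨b1, b2⟩ := h1 (i - 1, j) hw hh
            have b1' : ne (i - 1, j) ↔ nw (i, j) := by
              rw [b1]
              show nw (i - 1 + 1, j) ↔ nw (i, j)
              rw [e]
            have b2' : se (i - 1, j) ↔ sw (i, j) := by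
              rw [b2]
              show sw (i - 1 + 1, j) ↔ sw (i, j)
              rw [e]
            rw [← b1', ← b2', a1, a3]
          · exact Or.inr ⟨hA, hlt⟩
        · exact Or.inl (h3 (i, j) hv hh)
      -- up
      have T : (ne (i, j) ↔ nw (i, j)) ∨
          (Ad N h u (i, j) (i, j + 1) ∧ d (i, j + 1) < d (i, j)) := by
        by_cases hh : u (i, j)
        · have hw : ((i, j + 1) : Nd) ∈ N := (hUN (i, j) hh).1 hv
          have hA : Ad N h u (i, j) (i, j + 1) := ⟨hv, hw, Or.inr (Or.inr (Or.inl ⟨rfl, hh⟩))⟩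
          rcases lt_or_gt_of_ne (hd _ _ hA) with hlt | hlt
          · left
            obtain ⟨a1, a2, a3⟩ := child _ hw hlt
            obtain ⟨b1, b2⟩ := h4 (i, j) hv hh
            rw [b1, b2]
            exact a3.trans a2.symm
          · exact Or.inr ⟨hA, hlt⟩
        · exact Or.inl (h5 (i, j) hv hh)
      -- down
      have B : (sw (i, j) ↔ se (i, j)) ∨
          (Ad N h u (i, j) (i, j - 1) ∧ d (i, j - 1) < d (i, j)) := by
        by_cases hh : u (i, j - 1)
        · have e : ((i, j - 1 + 1) : Nd) = (i, j) := by rw [sub_add_cancel]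
          have hw : ((i, j - 1) : Nd) ∈ N := by
            have h7 := hUN (i, j - 1) hh
            apply h7.2
            show ((i, j - 1 + 1) : Nd) ∈ N
            rw [e]
            exact hv
          have hA : Ad N h u (i, j) (i, j - 1) :=
            ⟨hv, hw, Or.inr (Or.inr (Or.inr ⟨e.symm, hh⟩))⟩
          rcases lt_or_gt_of_ne (hd _ _ hA) with hlt | hlt
          · left
            obtain ⟨a1, a2, a3⟩ := child _ hw hlt
            obtain ⟨b1, b2⟩ := h4 (i, j - 1) hw hh
            have b1' : ne (i, j - 1) ↔ se (i, j) := by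
              rw [b1]
              show se (i, j - 1 + 1) ↔ se (i, j)
              rw [e]
            have b2' : nw (i, j - 1) ↔ sw (i, j) := by
              rw [b2]
              show sw (i, j - 1 + 1) ↔ sw (i, j)
              rw [e]
            rw [← b1', ← b2', a1]
          · exact Or.inr ⟨hA, hlt⟩
        · exact Or.inl (h6 (i, j) hv hh)
      have no : ∀ w w' : Nd, Ad N h u (i, j) w ∧ d w < d (i, j) →
          Ad N h u (i, j) w' ∧ d w' < d (i, j) → w = w' :=
        fun w w' a b => huniq _ _ _ a.1 b.1 a.2 b.2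
      have key : ∀ w w' : Nd, w ≠ w' → Ad N h u (i, j) w ∧ d w < d (i, j) →
          Ad N h u (i, j) w' ∧ d w' < d (i, j) → False := fun w w' hne a b => hne (no w w' a b)
      have nRL := key (i + 1, j) (i - 1, j)
        (by intro e; have e' : i + 1 = i - 1 := congrArg Prod.fst e; omega)
      have nRT := key (i + 1, j) (i, j + 1)
        (by intro e; have e' : i + 1 = i := congrArg Prod.fst e; omega)
      have nRB := key (i + 1, j) (i, j - 1)
        (by intro e; have e' : i + 1 = i := congrArg Prod.fst e; omega)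
      have nLT := key (i - 1, j) (i, j + 1)
        (by intro e; have e' : i - 1 = i := congrArg Prod.fst e; omega)
      have nLB := key (i - 1, j) (i, j - 1)
        (by intro e; have e' : i - 1 = i := congrArg Prod.fst e; omega)
      have nTB := key (i, j + 1) (i, j - 1)
        (by intro e; have e' : j + 1 = j - 1 := congrArg Prod.snd e; omega)
      rcases R with R | R
      · rcases L with L | L
        · rcases T with T | T
          · exact ⟨T, L.symm, R.symm.trans T⟩
          · rcases B with B | B
            · exact ⟨R.trans (B.symm.trans L.symm), L.symm, B.symm.trans L.symm⟩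
            · exact (nTB T B).elim
        · rcases T with T | T
          · rcases B with B | B
            · exact ⟨T, B.trans (R.symm.trans T), R.symm.trans T⟩
            · exact (nLB L B).elim
          · exact (nLT L T).elim
      · rcases L with L | L
        · rcases T with T | T
          · rcases B with B | B
            · exact ⟨T, L.symm, B.symm.trans L.symm⟩
            · exact (nRB R B).elim
          · exact (nRT R T).elim
        · exact (nRL R L).elim
  have all4 : ∀ v ∈ N, (ne v ↔ nw v) ∧ (sw v ↔ nw v) ∧ (se v ↔ nw v) :=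
    fun v hv => main (D - d v) v hv rfl
  have edge : ∀ v w, Ad N h u v w → (nw v ↔ nw w) := by
    intro v w hA
    obtain ⟨hv, hw, hA⟩ := hA
    obtain ⟨a1, a2, a3⟩ := all4 v hv
    obtain ⟨b1, b2, b3⟩ := all4 w hw
    rcases hA with ⟨rfl, hh⟩ | ⟨rfl, hh⟩ | ⟨rfl, hh⟩ | ⟨rfl, hh⟩
    · exact a1.symm.trans (h1 v hv hh).1
    · exact (b1.symm.trans (h1 w hw hh).1).symm
    · exact a2.symm.trans (a2.trans (a1.symm.trans ((h4 v hv hh).1.trans b3)))
    · exact (b1.symm.trans ((h4 w hw hh).1.trans a3)).symm
  have path : ∀ v w, Relation.ReflTransGen (Ad N h u) v w → (nw v ↔ nw w) := by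
    intro v w hp
    induction hp with
    | refl => exact Iff.rfl
    | tail _ hA ih => exact ih.trans (edge _ _ hA)
  intro v hv w hw
  have h0 := path v w (hC v hv w hw)
  obtain ⟨a1, a2, a3⟩ := all4 v hv
  exact ⟨h0, a1.trans h0, a2.trans h0, a3.trans h0⟩

end Pool.NET
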